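import Pool.Agent.Helper47.EX.DJ
import Pool.Agent.Helper37.EX.CF
import Pool.Agent.Helper28.EX.HS

set_option autoImplicit false

open Finset
open scoped Classical

namespace OT

noncomputable section

/-! ### HIS : the host for trees with many sources, two near-cliques -/

theorem his_core (Δ : ℕ) (κ κ₀ L c₁ : ℝ) (k : ℕ)
    (hcut : ∀ (V : Type) [Fintype V] (D : V → V → Prop)
      (B C : Finset V) (κ γ L : ℝ) (k : ℕ), TwoCl D B C κ → κ ≤ 1 / 100 → 0 < γ → γ ≤ 1 / 20 →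
      SemiDeg D L → c₁ * (k + 1) ≤ L → 0 < Fintype.card V →
      ∃ (G K : Finset V) (dl : V → Bool) (lv : V → Fin (Δ + 1) → V) (kd : Bool → Bool → Bool)
        (F : Bool → Finset V), Stk D Δ G K dl lv ∧ Cuts D B C γ G K dl lv kd F k ∧
        (G ∪ K).card ≤ 2 * k)
    {V : Type} [Fintype V] (D : V → V → Prop)
    (B C X : Finset V) (hn0 : 0 < Fintype.card V)
    (hκs : κ₀ ≤ 1 / 100) (hκκ : 2 * κ₀ ≤ κ) (hκ0 : 0 ≤ κ₀)
    (hL1 : c₁ * (k + 1) ≤ L)
    (hL2 : 12 * ((Δ : ℝ) + 2) * ((2 * (Δ : ℝ) + 7) * k + 1) ≤ L)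
    (hk : 6 * ((Δ : ℝ) + 2) * ((2 * (Δ : ℝ) + 7) * k) ≤ (Fintype.card V : ℝ))
    (tc : TwoCl D B C κ₀) (sdg : SemiDeg D L) (BX : B ⊆ X) (CX : Disjoint C X)
    (out1 : ∀ u ∈ X, (Fintype.card V : ℝ) / 5 ≤ ((B ∩ adjN D true u).card : ℝ))
    (out0 : ∀ u, u ∉ X → (Fintype.card V : ℝ) / 5 ≤ ((C ∩ adjN D true u).card : ℝ))
    (half : Fintype.card V ≤ 2 * X.card) :
    ∃ (G K' : Finset V) (dl : V → Bool) (lv : V → Fin (Δ + 1) → V)
      (kd : Bool → Bool → Bool) (F : Bool → Finset V) (U : Finset V),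
      HostIS D Δ B C X G K' dl lv kd F U (1 / 20) κ k := by
  have hn : (0 : ℝ) < (Fintype.card V : ℝ) := by exact_mod_cast hn0
  set n : ℝ := (Fintype.card V : ℝ) with hndef
  have hΔ0 : (0 : ℝ) ≤ (Δ : ℝ) := Nat.cast_nonneg Δ
  have hk0 : (0 : ℝ) ≤ (k : ℝ) := Nat.cast_nonneg k
  have hXhalf : n ≤ 2 * (X.card : ℝ) := by rw [hndef]; exact_mod_cast half
  have hXc : (X.card : ℝ) ≤ (1 / 2 + κ₀) * n := by
    have h1 : X.card + C.card ≤ Fintype.card V := by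
      rw [← card_union_of_disjoint CX.symm]
      exact card_le_univ _
    have h2 : (X.card : ℝ) + (C.card : ℝ) ≤ n := by rw [hndef]; exact_mod_cast h1
    have := tc.cardC
    linarith
  have hκn : 2 * κ₀ * n ≤ κ * n := mul_le_mul_of_nonneg_right hκκ hn.le
  have hκn0 : 0 ≤ κ₀ * n := mul_nonneg hκ0 hn.le
  obtain ⟨G, K, dl, lv, kd, F, hstk, hcuts, hGK⟩ := hcut V D B C κ₀ (1 / 20) L k tc hκs
    (by norm_num) le_rfl sdg hL1 hn0
  have hC3 : (1 / 3 : ℝ) * n ≤ (C.card : ℝ) := by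
    have := tc.cardC
    have h : κ₀ * n ≤ 1 / 100 * n := mul_le_mul_of_nonneg_right hκs hn.le
    linarith
  have hdeg : ∀ y ∈ C, L ≤ ((X ∩ adjN D (!true) y).card : ℝ) := by
    intro y _
    have h1 := hs_split (adjN D (!true) y) X
    have h2 : X.card ≤ Fintype.card V := card_le_univ _
    have h3 : ((adjN D (!true) y).card : ℝ) ≤
        ((X ∩ adjN D (!true) y).card : ℝ) + (n - (X.card : ℝ)) := by
      rw [hndef, ← Nat.cast_sub h2]
      exact_mod_cast h1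
    have h4 := sdg.deg (!true) y
    rw [← hndef] at h4
    linarith
  have hpos : 0 ≤ (2 * (Δ : ℝ) + 7) * k := by positivity
  obtain ⟨S, lv', hSX, hSst, hSc⟩ := stars (Δ + 1) (1 / 3) (by norm_num) D sdg.irr true X C L 1
    (by norm_num) hC3 (by push_cast; nlinarith) hdeg
    (fun u _ => by rw [one_mul]; exact_mod_cast card_le_univ _) hn0
  have hScard : (2 * (Δ : ℝ) + 7) * k ≤ (S.card : ℝ) := by
    rcases hSc with h | h
    · push_cast at h
      have h9 : 12 * ((Δ : ℝ) + 2) * ((2 * (Δ : ℝ) + 7) * k) ≤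
          12 * ((Δ : ℝ) + 2) * (S.card : ℝ) := by nlinarith
      exact le_of_mul_le_mul_left h9 (by positivity)
    · push_cast at h
      have h9 : 6 * ((Δ : ℝ) + 2) * ((2 * (Δ : ℝ) + 7) * k) ≤
          6 * ((Δ : ℝ) + 2) * (S.card : ℝ) := by
        rw [← hndef] at h
        nlinarith
      exact le_of_mul_le_mul_left h9 (by positivity)
  have hScard' : (2 * Δ + 7) * k ≤ S.card := by exact_mod_cast hScard
  have hm : k + (Δ + 2) * G.card + K.card ≤ S.card := by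
    have h1 : G.card ≤ 2 * k := (card_le_card subset_union_left).trans hGK
    have h2 : K.card ≤ 2 * k := (card_le_card subset_union_right).trans hGK
    have h3 : (Δ + 2) * G.card ≤ (Δ + 2) * (2 * k) := Nat.mul_le_mul_left _ h1
    nlinarith
  obtain ⟨U, dl₂, lv₂, hUS, hUc, hUd, hstk₂, hold, hnew⟩ := stkAdd hstk true S C lv' hSst k hm
  have hmono : ∀ {u : V} {s l : Bool}, Us D B C (1 / 20) G dl lv u s l →
      Us D B C (1 / 20) (G ∪ U) dl₂ lv₂ u s l := fun h =>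
    us_mono subset_union_left hold h
  refine ⟨G ∪ U, K, dl₂, lv₂, kd, F, U, ?_⟩
  refine
    { tc := ⟨tc.disj, ?_, ?_, ?_, ?_⟩
      BX := BX
      CX := CX
      out := ?_
      half := half
      half' := ?_
      stk := hstk₂
      cuts := ⟨?_, hcuts.disj, hcuts.card, ?_, ?_, hcuts.ne⟩
      UG := subset_union_right
      UX := hUS.trans hSX
      UF := ?_
      Uus := ?_
      cardU := hUc.ge }
  · have := tc.cardB
    rw [← hndef] at this ⊢
    nlinarith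
  · have := tc.cardC
    rw [← hndef] at this ⊢
    nlinarith
  · intro s b hb
    have := tc.missB s b hb
    rw [← hndef] at this ⊢
    nlinarith
  · intro s c hc
    have := tc.missC s c hc
    rw [← hndef] at this ⊢
    nlinarith
  · intro u
    by_cases hu : u ∈ X
    · have := out1 u hu
      simp only [Fr, sd, hu, decide_true, if_true]
      rw [← hndef]
      linarith
    · have := out0 u hu
      simp only [Fr, sd, hu, decide_false]
      rw [← hndef]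
      simp
      linarith
  · rw [← hndef]
    nlinarith
  · intro δ
    exact (hcuts.sub δ).trans (union_subset_union_left subset_union_left)
  · intro δ u hu s
    exact hmono (hcuts.con δ u hu s)
  · intro δ u hu s hs l
    exact hmono (hcuts.fre δ u hu s hs l)
  · intro δ
    exact hUd.mono_right (hcuts.sub δ)
  · intro u hu
    refine Or.inr ⟨mem_union_right _ hu, (hnew u hu).1, ?_⟩
    intro j
    rw [(hnew u hu).2]
    exact (hSst.adj u (hUS hu) j).1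

theorem his_pre {V : Type} [Fintype V] (D : V → V → Prop) (B₀ C₀ : Finset V) (κ₀ L : ℝ)
    (hκ : κ₀ ≤ 1 / 100) (hL : 0 ≤ L) (tc : TwoCl D B₀ C₀ κ₀)
    (sdg : SemiDeg D L) : ∃ X₀ : Finset V, B₀ ⊆ X₀ ∧ Disjoint C₀ X₀ ∧
      (∀ u ∈ X₀, (Fintype.card V : ℝ) / 5 ≤ ((B₀ ∩ adjN D true u).card : ℝ)) ∧
      (∀ u, u ∉ X₀ → (Fintype.card V : ℝ) / 5 ≤ ((C₀ ∩ adjN D true u).card : ℝ)) := by
  have hn : (0 : ℝ) ≤ (Fintype.card V : ℝ) := Nat.cast_nonneg _
  refine ⟨B₀ ∪ (univ.filter fun e => e ∉ C₀ ∧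
    (Fintype.card V : ℝ) / 5 ≤ ((B₀ ∩ adjN D true e).card : ℝ)), subset_union_left, ?_, ?_, ?_⟩
  · rw [disjoint_union_right]
    refine ⟨tc.disj.symm, ?_⟩
    rw [disjoint_left]
    intro u hu hu'
    exact (mem_filter.1 hu').2.1 hu
  · intro u hu
    rcases mem_union.1 hu with h | h
    · have h1 := tc.missB true u h
      have h2 := hs_sdiff B₀ (adjN D true u)
      have h3 := tc.cardB
      nlinarith
    · exact (mem_filter.1 h).2.2
  · intro u hu
    rw [mem_union, not_or, mem_filter, not_and] at hu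
    by_cases hC : u ∈ C₀
    · have h1 := tc.missC true u hC
      have h2 := hs_sdiff C₀ (adjN D true u)
      have h3 := tc.cardC
      nlinarith
    · have h1 : ((B₀ ∩ adjN D true u).card : ℝ) < (Fintype.card V : ℝ) / 5 := by
        by_contra h
        push Not at h
        exact hu.2 (mem_univ _) ⟨hC, h⟩
      have h2 := hs_split (adjN D true u) (C₀ ∪ B₀)
      have h2' : (C₀ ∪ B₀).card ≤ Fintype.card V := card_le_univ _
      have h3 : ((adjN D true u).card : ℝ) ≤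
          (((C₀ ∪ B₀) ∩ adjN D true u).card : ℝ) +
            ((Fintype.card V : ℝ) - ((C₀ ∪ B₀).card : ℝ)) := by
        rw [← Nat.cast_sub h2']
        exact_mod_cast h2
      have h4 : (((C₀ ∪ B₀) ∩ adjN D true u).card : ℝ) ≤
          ((C₀ ∩ adjN D true u).card : ℝ) + ((B₀ ∩ adjN D true u).card : ℝ) := by
        rw [union_inter_distrib_right]
        exact_mod_cast card_union_le _ _
      have h5 : ((C₀ ∪ B₀).card : ℝ) = (C₀.card : ℝ) + (B₀.card : ℝ) := by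
        rw [card_union_of_disjoint tc.disj.symm]
        push_cast; ring
      have h6 := sdg.deg true u
      have h7 := tc.cardC
      have h8 := tc.cardB
      nlinarith

theorem hostIS (Δ K : ℕ) : ∃ γ : ℝ, 0 < γ ∧ ∀ κ : ℝ, 0 < κ → ∃ (κ₀ c : ℝ) (N : ℕ), 0 < κ₀ ∧
    ∀ (V : Type) [Fintype V], N ≤ Fintype.card V → ∀ (D : V → V → Prop) (B₀ C₀ : Finset V),
    TwoCl D B₀ C₀ κ₀ → SemiDeg D (c * Real.log (Fintype.card V)) →
    ∃ (B C X G K' : Finset V) (dl : V → Bool) (lv : V → Fin (Δ + 1) → V)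
      (kd : Bool → Bool → Bool) (F : Bool → Finset V) (U : Finset V),
      HostIS D Δ B C X G K' dl lv kd F U γ κ (K * (Nat.log 2 (Fintype.card V) + 1)) := by
  have hΔ0 : (0 : ℝ) ≤ (Δ : ℝ) := Nat.cast_nonneg Δ
  have hK0 : (0 : ℝ) ≤ (K : ℝ) := Nat.cast_nonneg K
  refine ⟨1 / 20, by norm_num, ?_⟩
  intro κ hκ
  obtain ⟨c₁, hc₁, hcut⟩ := cutFam Δ
  obtain ⟨N, hN3, hN⟩ := hs_large (6 * ((Δ : ℝ) + 2) * (2 * (Δ : ℝ) + 7) * (3 * K))
  refine ⟨min (1 / 100) (κ / 2), (c₁ + 12 * ((Δ : ℝ) + 2) * (2 * (Δ : ℝ) + 7)) * (3 * K + 1), N,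
    by positivity, ?_⟩
  intro V _ hV D B₀ C₀ tc sdg
  set κ₀ := min (1 / 100) (κ / 2) with hκ₀
  have hκ0 : 0 < κ₀ := by rw [hκ₀]; positivity
  have hκs : κ₀ ≤ 1 / 100 := min_le_left _ _
  have hκκ : 2 * κ₀ ≤ κ := by
    have := min_le_right (1 / 100 : ℝ) (κ / 2)
    linarith
  have h3 : 3 ≤ Fintype.card V := hN3.trans hV
  have hlog1 : (1 : ℝ) ≤ Real.log (Fintype.card V) := by
    rw [Real.le_log_iff_exp_le (by positivity)]
    have : (3 : ℝ) ≤ Fintype.card V := by exact_mod_cast h3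
    have := Real.exp_one_lt_d9
    linarith
  have hk1 := hs_log K (Fintype.card V) h3
  have hk2 := hN (Fintype.card V) hV
  set k := K * (Nat.log 2 (Fintype.card V) + 1) with hkdef
  have hk0 : (0 : ℝ) ≤ (k : ℝ) := Nat.cast_nonneg k
  set L := (c₁ + 12 * ((Δ : ℝ) + 2) * (2 * (Δ : ℝ) + 7)) * (3 * K + 1) *
    Real.log (Fintype.card V) with hLdef
  have hk1' : (k : ℝ) + 1 ≤ (3 * K + 1) * Real.log (Fintype.card V) := by
    nlinarith
  have hA : (c₁ + 12 * ((Δ : ℝ) + 2) * (2 * (Δ : ℝ) + 7)) * ((k : ℝ) + 1) ≤ L := by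
    rw [hLdef, mul_assoc (c₁ + 12 * ((Δ : ℝ) + 2) * (2 * (Δ : ℝ) + 7))]
    exact mul_le_mul_of_nonneg_left hk1' (by positivity)
  have hL1 : c₁ * ((k : ℝ) + 1) ≤ L := by
    have : 0 ≤ 12 * ((Δ : ℝ) + 2) * (2 * (Δ : ℝ) + 7) * ((k : ℝ) + 1) := by positivity
    nlinarith
  have hL2 : 12 * ((Δ : ℝ) + 2) * ((2 * (Δ : ℝ) + 7) * k + 1) ≤ L := by
    have h1 : 0 ≤ c₁ * ((k : ℝ) + 1) := by positivity
    have h2 : (2 * (Δ : ℝ) + 7) * k + 1 ≤ (2 * (Δ : ℝ) + 7) * ((k : ℝ) + 1) := by nlinarith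
    have h3 : 12 * ((Δ : ℝ) + 2) * ((2 * (Δ : ℝ) + 7) * k + 1) ≤
        12 * ((Δ : ℝ) + 2) * ((2 * (Δ : ℝ) + 7) * ((k : ℝ) + 1)) :=
      mul_le_mul_of_nonneg_left h2 (by positivity)
    nlinarith
  have hk : 6 * ((Δ : ℝ) + 2) * ((2 * (Δ : ℝ) + 7) * k) ≤ (Fintype.card V : ℝ) := by
    refine le_trans ?_ hk2
    have h1 : 6 * ((Δ : ℝ) + 2) * ((2 * (Δ : ℝ) + 7) * k) =
      6 * ((Δ : ℝ) + 2) * (2 * (Δ : ℝ) + 7) * k := by ring
    have h2 : 6 * ((Δ : ℝ) + 2) * (2 * (Δ : ℝ) + 7) * (3 * K) * Real.log (Fintype.card V) =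
      6 * ((Δ : ℝ) + 2) * (2 * (Δ : ℝ) + 7) * (3 * K * Real.log (Fintype.card V)) := by ring
    rw [h1, h2]
    exact mul_le_mul_of_nonneg_left hk1 (by positivity)
  have hL0 : 0 ≤ L := by rw [hLdef]; positivity
  have hn0 : 0 < Fintype.card V := by omega
  obtain ⟨X₀, hBX, hCX, hout1, hout0⟩ := his_pre D B₀ C₀ κ₀ L hκs hL0 tc sdg
  by_cases hcase : Fintype.card V ≤ 2 * X₀.card
  · exact ⟨B₀, C₀, X₀, his_core Δ κ κ₀ L c₁ k hcut D B₀ C₀ X₀ hn0 hκs hκκ hκ0.le hL1 hL2 hk tc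
      sdg hBX hCX hout1 hout0 hcase⟩
  · have tc' : TwoCl D C₀ B₀ κ₀ := ⟨tc.disj.symm, tc.cardC, tc.cardB, tc.missC, tc.missB⟩
    refine ⟨C₀, B₀, X₀ᶜ, his_core Δ κ κ₀ L c₁ k hcut D C₀ B₀ X₀ᶜ hn0 hκs hκκ hκ0.le hL1 hL2 hk
      tc' sdg ?_ ?_ ?_ ?_ ?_⟩
    · intro c hc
      rw [mem_compl]
      exact disjoint_left.1 hCX hc
    · rw [disjoint_left]
      intro b hb hb'
      exact (mem_compl.1 hb') (hBX hb)
    · intro u hu
      exact hout0 u (mem_compl.1 hu)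
    · intro u hu
      exact hout1 u (by simpa using hu)
    · rw [card_compl]
      have : X₀.card ≤ Fintype.card V := card_le_univ _
      omega

end

end OT
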